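import Pool.Agent.D0H11.GO.Stm

/-!
# GO, module PD: two numbers, upper bound by the product of two Selberg sieves

Author: helper52 (statement and paper proof: helper11, see `Pool/Agent/D0H11/GO/Stm.lean`).
-/

set_option autoImplicit false

namespace Pool.Agent.D0H52.GO

open Finset MeasureTheory Filter Pool.Agent.D0H11.GO

/-- the sieve weight -/
noncomputable def W (z : ℕ) (lam : ℕ → ℝ) (n : ℤ) : ℝ :=
  ∑ d ∈ Icc 1 z, if (d : ℤ) ∣ n then lam d else 0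

theorem W_prime {z : ℕ} (hz : 1 ≤ z) {lam : ℕ → ℝ} (h1 : lam 1 = 1) (P : ℕ) (hP : P.Prime)
    (hzP : z < P) : W z lam (P : ℤ) = 1 := by
  unfold W
  rw [sum_eq_single_of_mem 1 (mem_Icc.2 ⟨le_rfl, hz⟩)]
  · simp [h1]
  · intro d hd hne
    rw [if_neg]
    intro h
    rw [Int.natCast_dvd_natCast, Nat.dvd_prime hP] at h
    rw [mem_Icc] at hd
    rcases h with h | h
    · exact hne h
    · omega

theorem W_sq (z : ℕ) (lam : ℕ → ℝ) (n : ℤ) : W z lam n ^ 2 =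
    ∑ p ∈ Icc 1 z ×ˢ Icc 1 z, lam p.1 * lam p.2 *
      (if ((Nat.lcm p.1 p.2 : ℕ) : ℤ) ∣ n then 1 else 0) := by
  unfold W
  rw [sq, sum_mul_sum, sum_product]
  refine sum_congr rfl (fun d _ => sum_congr rfl (fun d' _ => ?_))
  have h : ((Nat.lcm d d' : ℕ) : ℤ) ∣ n ↔ (d : ℤ) ∣ n ∧ (d' : ℤ) ∣ n := by
    rw [Int.natCast_dvd, Int.natCast_dvd, Int.natCast_dvd, Nat.lcm_dvd_iff]
  by_cases h1 : (d : ℤ) ∣ n
  · by_cases h2 : (d' : ℤ) ∣ n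
    · simp [h, h1, h2]
    · simp [h, h1, h2]
  · simp [h, h1]

/-- the coefficient of a quadruple -/
noncomputable def co (lam : ℕ → ℝ) (p : (ℕ × ℕ) × (ℕ × ℕ)) : ℝ :=
  lam p.1.1 * lam p.1.2 * (lam p.2.1 * lam p.2.2)

/-- the quadruples -/
def TT (z : ℕ) : Finset ((ℕ × ℕ) × (ℕ × ℕ)) := (Icc 1 z ×ˢ Icc 1 z) ×ˢ (Icc 1 z ×ˢ Icc 1 z)

theorem WW (z : ℕ) (lam : ℕ → ℝ) (n n' : ℤ) : W z lam n ^ 2 * W z lam n' ^ 2 =
    ∑ p ∈ TT z, co lam p * (if ((Nat.lcm p.1.1 p.1.2 : ℕ) : ℤ) ∣ n ∧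
      ((Nat.lcm p.2.1 p.2.2 : ℕ) : ℤ) ∣ n' then 1 else 0) := by
  unfold TT
  rw [sum_product (Icc 1 z ×ˢ Icc 1 z) (Icc 1 z ×ˢ Icc 1 z), W_sq, W_sq, sum_mul_sum]
  refine sum_congr rfl (fun a _ => sum_congr rfl (fun b _ => ?_))
  unfold co
  by_cases h1 : ((Nat.lcm a.1 a.2 : ℕ) : ℤ) ∣ n
  · by_cases h2 : ((Nat.lcm b.1 b.2 : ℕ) : ℤ) ∣ n'
    · simp [h1, h2]
    · simp [h2]
  · simp [h1]

theorem sieve2 (z : ℕ) (hz : 1 ≤ z) (lam : ℕ → ℝ) (h1 : lam 1 = 1) (s t : ℝ) (n1 n2 : ℝ → ℤ)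
    (m1 : Measurable n1) (m2 : Measurable n2) (S : Set ℝ) (hS : MeasurableSet S)
    (hsub : ∀ α ∈ S, α ∈ Set.Icc s t ∧ (∃ P : ℕ, P.Prime ∧ z < P ∧ n1 α = P) ∧
      (∃ P : ℕ, P.Prime ∧ z < P ∧ n2 α = P)) :
    (volume S).toReal ≤ ∑ p ∈ TT z, co lam p *
      (volume {α : ℝ | α ∈ Set.Icc s t ∧ ((Nat.lcm p.1.1 p.1.2 : ℕ) : ℤ) ∣ n1 α ∧
        ((Nat.lcm p.2.1 p.2.2 : ℕ) : ℤ) ∣ n2 α}).toReal := by
  classical
  set μ : Measure ℝ := volume.restrict (Set.Icc s t) with hμ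
  set E : (ℕ × ℕ) × (ℕ × ℕ) → Set ℝ := fun p => {α : ℝ | ((Nat.lcm p.1.1 p.1.2 : ℕ) : ℤ) ∣ n1 α ∧
        ((Nat.lcm p.2.1 p.2.2 : ℕ) : ℤ) ∣ n2 α} with hE
  have mE : ∀ p, MeasurableSet (E p) := by
    intro p
    have e1 : MeasurableSet (n1 ⁻¹' {m : ℤ | ((Nat.lcm p.1.1 p.1.2 : ℕ) : ℤ) ∣ m}) :=
      m1 (MeasurableSet.of_discrete)
    have e2 : MeasurableSet (n2 ⁻¹' {m : ℤ | ((Nat.lcm p.2.1 p.2.2 : ℕ) : ℤ) ∣ m}) :=
      m2 (MeasurableSet.of_discrete)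
    exact e1.inter e2
  have hf : ∀ α, W z lam (n1 α) ^ 2 * W z lam (n2 α) ^ 2 =
      ∑ p ∈ TT z, co lam p * (E p).indicator (fun _ => (1 : ℝ)) α := by
    intro α
    rw [WW]
    refine sum_congr rfl (fun p _ => ?_)
    congr 1
    by_cases h : ((Nat.lcm p.1.1 p.1.2 : ℕ) : ℤ) ∣ n1 α ∧ ((Nat.lcm p.2.1 p.2.2 : ℕ) : ℤ) ∣ n2 α
    · rw [if_pos h, Set.indicator_of_mem (show α ∈ E p from h)]
    · rw [if_neg h, Set.indicator_of_notMem (show α ∉ E p from h)]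
  have hint : ∀ p, Integrable ((E p).indicator (fun _ => (1 : ℝ))) μ :=
    fun p => (integrable_const (1 : ℝ)).indicator (mE p)
  have hSμ : (volume S).toReal = ∫ α, S.indicator (fun _ => (1 : ℝ)) α ∂μ := by
    rw [integral_indicator_const (1 : ℝ) hS, smul_eq_mul, mul_one, Measure.real, hμ,
      Measure.restrict_apply hS]
    congr 2
    exact (Set.inter_eq_left.2 (fun α hα => (hsub α hα).1)).symm
  rw [hSμ]
  have hle : ∫ α, S.indicator (fun _ => (1 : ℝ)) α ∂μ ≤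
      ∫ α, ∑ p ∈ TT z, co lam p * (E p).indicator (fun _ => (1 : ℝ)) α ∂μ := by
    refine integral_mono ((integrable_const (1 : ℝ)).indicator hS)
      (integrable_finsetSum _ (fun p _ => (hint p).const_mul _)) (fun α => ?_)
    simp only
    rw [← hf α]
    by_cases hα : α ∈ S
    · obtain ⟨_, ⟨P, hP, hzP, e1⟩, ⟨P', hP', hzP', e2⟩⟩ := hsub α hα
      rw [Set.indicator_of_mem hα, e1, e2, W_prime hz h1 P hP hzP, W_prime hz h1 P' hP' hzP']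
      norm_num
    · rw [Set.indicator_of_notMem hα]
      positivity
  refine hle.trans (le_of_eq ?_)
  rw [integral_finsetSum _ (fun p _ => (hint p).const_mul _)]
  refine sum_congr rfl (fun p _ => ?_)
  rw [integral_const_mul, integral_indicator_const (1 : ℝ) (mE p), smul_eq_mul, mul_one,
    Measure.real, hμ, Measure.restrict_apply (mE p)]
  congr 3
  ext α
  simp only [hE, Set.mem_inter_iff, Set.mem_ofPred_eq]
  tauto

theorem TT_card (z : ℕ) : ((TT z).card : ℝ) = (z : ℝ) ^ 4 := by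
  unfold TT
  rw [card_product, card_product, Nat.card_Icc]
  push_cast
  have : ((z + 1 - 1 : ℕ) : ℝ) = z := by simp
  ring

theorem main_sq (z : ℕ) (lam : ℕ → ℝ) :
    ∑ p ∈ TT z, co lam p * (1 / (((Nat.lcm p.1.1 p.1.2 : ℕ) : ℝ) * ((Nat.lcm p.2.1 p.2.2 : ℕ) : ℝ))) =
      (∑ d ∈ Icc 1 z, ∑ d' ∈ Icc 1 z, lam d * lam d' / (Nat.lcm d d' : ℝ)) ^ 2 := by
  rw [← sum_product', sq, sum_mul_sum, TT, sum_product]
  refine sum_congr rfl (fun a _ => sum_congr rfl (fun b _ => ?_))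
  unfold co
  rw [one_div, mul_inv]
  ring

theorem pd_core {K C : ℝ} (hK : 0 < K)
    (hEQ : ∀ (A B s t : ℝ) (k e e' : ℕ), 0 < A → B ≠ 0 → |B| ≤ A → s ≤ t → 1 ≤ e → 1 ≤ e' →
      |(volume {α : ℝ | α ∈ Set.Icc s t ∧ (e : ℤ) ∣ ⌊α * A⌋ + 1 ∧
        (e' : ℤ) ∣ ⌊α * (2 ^ k * A + B)⌋ + 1}).toReal - (t - s) / ((e : ℝ) * e')| ≤
      K * ((e : ℝ) * e') ^ 2 * (t - s + 1) * (|B| / A + 1 / |B|))
    (z : ℕ) (hz : 1 ≤ z) (lam : ℕ → ℝ) (h1 : lam 1 = 1) (hlam : ∀ d, |lam d| ≤ 1)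
    (hX0 : 0 ≤ ∑ d ∈ Icc 1 z, ∑ d' ∈ Icc 1 z, lam d * lam d' / (Nat.lcm d d' : ℝ))
    (hX : ∑ d ∈ Icc 1 z, ∑ d' ∈ Icc 1 z, lam d * lam d' / (Nat.lcm d d' : ℝ) ≤ C)
    (c r : ℝ) (hr : 0 < r) (hrc : r < c) (A B : ℝ) (k : ℕ) (hA : 0 < A) (hB : B ≠ 0)
    (hBA : 2 * |B| ≤ A) (hzA : 2 * (z : ℝ) ≤ (c - r) * A) (η : ℝ) (hη : |B| / A + 1 / |B| ≤ η) :
    (volume {α : ℝ | α ∈ Set.Icc (c - r) (c + r) ∧ (⌊α * A⌋₊ + 1).Prime ∧
      (⌊α * (2 ^ k * A + B)⌋₊ + 1).Prime}).toReal ≤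
      2 * r * C ^ 2 + (z : ℝ) ^ 12 * (K * (2 * r + 1) * η) := by
  have hcr : 0 < c - r := by linarith
  have hB0 : 0 < |B| := abs_pos.2 hB
  have hη0 : 0 ≤ η := le_trans (by positivity) hη
  set A2 : ℝ := 2 ^ k * A + B with hA2
  have hA2' : A / 2 ≤ A2 := by
    have h2 : (1 : ℝ) ≤ 2 ^ k := one_le_pow₀ (by norm_num)
    have h3 : A ≤ 2 ^ k * A := by nlinarith
    have h4 : -|B| ≤ B := neg_abs_le B
    rw [hA2]
    linarith
  set S : Set ℝ := {α : ℝ | α ∈ Set.Icc (c - r) (c + r) ∧ (⌊α * A⌋₊ + 1).Prime ∧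
      (⌊α * A2⌋₊ + 1).Prime} with hS
  have mS : MeasurableSet S := by
    have e1 : Measurable (fun α : ℝ => ⌊α * A⌋₊) := Nat.measurable_floor.comp (measurable_id.mul_const A)
    have e2 : Measurable (fun α : ℝ => ⌊α * A2⌋₊) := Nat.measurable_floor.comp (measurable_id.mul_const A2)
    have e3 : MeasurableSet ((fun α : ℝ => ⌊α * A⌋₊) ⁻¹' {m : ℕ | (m + 1).Prime}) :=
      e1 (MeasurableSet.of_discrete)
    have e4 : MeasurableSet ((fun α : ℝ => ⌊α * A2⌋₊) ⁻¹' {m : ℕ | (m + 1).Prime}) :=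
      e2 (MeasurableSet.of_discrete)
    exact measurableSet_Icc.inter (e3.inter e4)
  have hfl : ∀ (α a : ℝ), c - r ≤ α → A / 2 ≤ a → z < ⌊α * a⌋₊ + 1 ∧
      ⌊α * a⌋ + 1 = ((⌊α * a⌋₊ + 1 : ℕ) : ℤ) := by
    intro α a hα ha
    have h5 : (z : ℝ) ≤ α * a := by
      have h6 : (c - r) * (A / 2) ≤ α * a :=
        mul_le_mul hα ha (by linarith) (by linarith)
      linarith
    refine ⟨Nat.lt_succ_of_le (Nat.le_floor h5), ?_⟩
    have h7 : (0 : ℝ) ≤ α * a := (Nat.cast_nonneg z).trans h5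
    rw [← Int.natCast_floor_eq_floor h7]
    push_cast
    rfl
  have hsv := sieve2 z hz lam h1 (c - r) (c + r) (fun α => ⌊α * A⌋ + 1) (fun α => ⌊α * A2⌋ + 1)
    ((Int.measurable_floor.comp (measurable_id.mul_const A)).add_const 1)
    ((Int.measurable_floor.comp (measurable_id.mul_const A2)).add_const 1) S mS (by
      rintro α ⟨hα, hp, hp2⟩
      obtain ⟨a1, a2⟩ := hfl α A hα.1 (by linarith)
      obtain ⟨b1, b2⟩ := hfl α A2 hα.1 hA2'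
      exact ⟨hα, ⟨_, hp, a1, a2⟩, ⟨_, hp2, b1, b2⟩⟩)
  refine hsv.trans ?_
  -- the main term and the error
  have hterm : ∀ p ∈ TT z, co lam p * (volume {α : ℝ | α ∈ Set.Icc (c - r) (c + r) ∧
      ((Nat.lcm p.1.1 p.1.2 : ℕ) : ℤ) ∣ ⌊α * A⌋ + 1 ∧
        ((Nat.lcm p.2.1 p.2.2 : ℕ) : ℤ) ∣ ⌊α * A2⌋ + 1}).toReal ≤
      2 * r * (co lam p * (1 / (((Nat.lcm p.1.1 p.1.2 : ℕ) : ℝ) * ((Nat.lcm p.2.1 p.2.2 : ℕ) : ℝ)))) +
        (z : ℝ) ^ 8 * (K * (2 * r + 1) * η) := by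
    intro p hp
    simp only [TT, mem_product, mem_Icc] at hp
    obtain ⟨⟨⟨a1, a2⟩, ⟨a3, a4⟩⟩, ⟨⟨a5, a6⟩, ⟨a7, a8⟩⟩⟩ := hp
    set e : ℕ := Nat.lcm p.1.1 p.1.2 with he
    set e' : ℕ := Nat.lcm p.2.1 p.2.2 with he'
    have g1 : 1 ≤ e := Nat.lcm_pos a1 a3
    have g2 : 1 ≤ e' := Nat.lcm_pos a5 a7
    have g3 : e ≤ z * z := (Nat.le_of_dvd (Nat.mul_pos a1 a3) (Nat.lcm_dvd_mul _ _)).trans
      (Nat.mul_le_mul a2 a4)
    have g4 : e' ≤ z * z := (Nat.le_of_dvd (Nat.mul_pos a5 a7) (Nat.lcm_dvd_mul _ _)).trans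
      (Nat.mul_le_mul a6 a8)
    have g5 := hEQ A B (c - r) (c + r) k e e' hA hB (by linarith) (by linarith) g1 g2
    have g6 : c + r - (c - r) = 2 * r := by ring
    rw [g6] at g5
    set v : ℝ := (volume {α : ℝ | α ∈ Set.Icc (c - r) (c + r) ∧ (e : ℤ) ∣ ⌊α * A⌋ + 1 ∧
        (e' : ℤ) ∣ ⌊α * A2⌋ + 1}).toReal with hv
    have g7 : ((e : ℝ) * e') ^ 2 ≤ (z : ℝ) ^ 8 := by
      have g8 : (e : ℝ) ≤ z * z := by exact_mod_cast g3
      have g9 : (e' : ℝ) ≤ z * z := by exact_mod_cast g4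
      have g10 : (e : ℝ) * e' ≤ (z * z) * (z * z) :=
        mul_le_mul g8 g9 (Nat.cast_nonneg _) (by positivity)
      calc ((e : ℝ) * e') ^ 2 ≤ ((z * z) * (z * z) : ℝ) ^ 2 := pow_le_pow_left₀ (by positivity) g10 2
        _ = (z : ℝ) ^ 8 := by ring
    have g11 : |v - 2 * r / ((e : ℝ) * e')| ≤ (z : ℝ) ^ 8 * (K * (2 * r + 1) * η) := by
      refine g5.trans ?_
      calc K * ((e : ℝ) * e') ^ 2 * (2 * r + 1) * (|B| / A + 1 / |B|)
          ≤ K * ((e : ℝ) * e') ^ 2 * (2 * r + 1) * η :=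
            mul_le_mul_of_nonneg_left hη (by positivity)
        _ = ((e : ℝ) * e') ^ 2 * (K * (2 * r + 1) * η) := by ring
        _ ≤ _ := mul_le_mul_of_nonneg_right g7 (by positivity)
    have g12 : |co lam p| ≤ 1 := by
      unfold co
      rw [abs_mul, abs_mul, abs_mul]
      have u1 := hlam p.1.1
      have u2 := hlam p.1.2
      have u3 := hlam p.2.1
      have u4 := hlam p.2.2
      have w1 : |lam p.1.1| * |lam p.1.2| ≤ 1 := mul_le_one₀ u1 (abs_nonneg _) u2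
      have w2 : |lam p.2.1| * |lam p.2.2| ≤ 1 := mul_le_one₀ u3 (abs_nonneg _) u4
      exact mul_le_one₀ w1 (by positivity) w2
    have g13 : co lam p * (v - 2 * r / ((e : ℝ) * e')) ≤ (z : ℝ) ^ 8 * (K * (2 * r + 1) * η) := by
      refine (le_abs_self _).trans ?_
      rw [abs_mul]
      calc |co lam p| * |v - 2 * r / ((e : ℝ) * e')| ≤ 1 * |v - 2 * r / ((e : ℝ) * e')| :=
            mul_le_mul_of_nonneg_right g12 (abs_nonneg _)
        _ ≤ _ := by rw [one_mul]; exact g11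
    have g14 : co lam p * (v - 2 * r / ((e : ℝ) * e')) =
        co lam p * v - 2 * r * (co lam p * (1 / ((e : ℝ) * e'))) := by ring
    rw [g14] at g13
    linarith
  refine (sum_le_sum hterm).trans ?_
  rw [sum_add_distrib, ← mul_sum, main_sq, sum_const, nsmul_eq_mul, TT_card]
  have hX2 : (∑ d ∈ Icc 1 z, ∑ d' ∈ Icc 1 z, lam d * lam d' / (Nat.lcm d d' : ℝ)) ^ 2 ≤ C ^ 2 :=
    pow_le_pow_left₀ hX0 hX 2
  have hX3 := mul_le_mul_of_nonneg_left hX2 (by linarith : (0 : ℝ) ≤ 2 * r)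
  have e5 : (z : ℝ) ^ 4 * ((z : ℝ) ^ 8 * (K * (2 * r + 1) * η)) =
      (z : ℝ) ^ 12 * (K * (2 * r + 1) * η) := by ring
  rw [e5]
  linarith

theorem t_PD : S_EQ → S_SEL → S_PD := by
  rintro ⟨K, hK, hEQ⟩ ⟨C, hC, hSEL⟩
  refine ⟨2 * (80 * C / Real.log 2) ^ 2 + 1, by positivity, fun c r hr hrc => ?_⟩
  have hcr : 0 < c - r := by linarith
  have hs2 : (1 : ℝ) < Real.sqrt 2 := by
    rw [Real.lt_sqrt (by norm_num)]
    norm_num
  have hlim := tendsto_pow_const_div_const_pow_of_one_lt 2 hs2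
  have hε : 0 < r / (2 * K * (2 * r + 1)) := by positivity
  have hev1 := hlim.eventually (gt_mem_nhds hε)
  have hlim2 : Tendsto (fun n : ℕ => (2 : ℝ) ^ n) atTop atTop :=
    tendsto_pow_atTop_atTop_of_one_lt (by norm_num)
  filter_upwards [hev1, hlim2.eventually (eventually_ge_atTop (2 / (c - r))),
    eventually_ge_atTop 40] with M hM1 hM2 hM40 A B k hB hA
  set m : ℕ := M / 40 with hm
  have hm1 : 1 ≤ m := by omega
  obtain ⟨lam, l1, l2, l3, l4, l5⟩ := hSEL (2 ^ m) (by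
    calc 2 = 2 ^ 1 := by norm_num
      _ ≤ 2 ^ m := Nat.pow_le_pow_right (by norm_num) hm1)
  have h2M : (2 : ℝ) ≤ 2 ^ M := by
    calc (2 : ℝ) = 2 ^ 1 := by norm_num
      _ ≤ 2 ^ M := pow_le_pow_right₀ (by norm_num) (by omega)
  have hB0 : 0 < |B| := lt_of_lt_of_le (by positivity) hB
  have hBne : B ≠ 0 := abs_pos.1 hB0
  have hBA : 2 * |B| ≤ A := by
    have : |B| * 2 ≤ |B| * 2 ^ M := mul_le_mul_of_nonneg_left h2M hB0.le
    linarith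
  have hA0 : 0 < A := by linarith
  have hzM : ((2 ^ m : ℕ) : ℝ) ≤ 2 ^ M := by
    push_cast
    exact pow_le_pow_right₀ (by norm_num) (by omega)
  have hA2 : (2 : ℝ) ^ M * 2 ^ M ≤ A := (mul_le_mul_of_nonneg_right hB (by positivity)).trans hA
  have hcr2 : 2 ≤ (c - r) * 2 ^ M := by
    rw [div_le_iff₀ hcr] at hM2
    linarith
  have hzA : 2 * ((2 ^ m : ℕ) : ℝ) ≤ (c - r) * A := by
    calc 2 * ((2 ^ m : ℕ) : ℝ) ≤ 2 * 2 ^ M := by linarith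
      _ ≤ ((c - r) * 2 ^ M) * 2 ^ M := mul_le_mul_of_nonneg_right hcr2 (by positivity)
      _ = (c - r) * (2 ^ M * 2 ^ M) := by ring
      _ ≤ _ := mul_le_mul_of_nonneg_left hA2 hcr.le
  have hη : |B| / A + 1 / |B| ≤ 2 / 2 ^ M := by
    have h3 : |B| / A ≤ 1 / 2 ^ M := by
      rw [div_le_div_iff₀ hA0 (by positivity)]
      linarith
    have h4 : 1 / |B| ≤ 1 / 2 ^ M := one_div_le_one_div_of_le (by positivity) hB
    have h5 : (2 : ℝ) / 2 ^ M = 1 / 2 ^ M + 1 / 2 ^ M := by ring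
    rw [h5]
    exact add_le_add h3 h4
  have hcore := pd_core hK hEQ (2 ^ m) Nat.one_le_two_pow lam l1 l2 l4 l5 c r hr hrc A B k hA0 hBne
    hBA hzA _ hη
  -- the size of the two terms
  have hlogz : Real.log (((2 : ℕ) ^ m : ℕ) : ℝ) = m * Real.log 2 := by
    push_cast
    rw [Real.log_pow]
  have hl2 : 0 < Real.log 2 := Real.log_pos (by norm_num)
  have hMm : (M : ℝ) ≤ 80 * m := by
    have : M ≤ 80 * m := by omega
    exact_mod_cast this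
  have hM0 : (0 : ℝ) < M := by
    have : 0 < M := by omega
    exact_mod_cast this
  have hm0 : (0 : ℝ) < m := by exact_mod_cast hm1
  have ht1 : 2 * r * (C / Real.log (((2 : ℕ) ^ m : ℕ) : ℝ)) ^ 2 ≤
      2 * (80 * C / Real.log 2) ^ 2 * r / (M : ℝ) ^ 2 := by
    have h6 : C / Real.log (((2 : ℕ) ^ m : ℕ) : ℝ) ≤ 80 * C / Real.log 2 / M := by
      rw [hlogz, div_div, div_le_div_iff₀ (by positivity) (by positivity)]
      have h7 : C * (Real.log 2 * M) ≤ C * (Real.log 2 * (80 * m)) :=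
        mul_le_mul_of_nonneg_left (mul_le_mul_of_nonneg_left hMm hl2.le) hC.le
      linarith
    have h8 : 0 ≤ C / Real.log (((2 : ℕ) ^ m : ℕ) : ℝ) := by
      rw [hlogz]
      positivity
    have h9 := pow_le_pow_left₀ h8 h6 2
    calc 2 * r * (C / Real.log (((2 : ℕ) ^ m : ℕ) : ℝ)) ^ 2
        ≤ 2 * r * (80 * C / Real.log 2 / M) ^ 2 := mul_le_mul_of_nonneg_left h9 (by positivity)
      _ = _ := by
        rw [div_pow (80 * C / Real.log 2) (M : ℝ)]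
        ring
  have ht2 : (((2 : ℕ) ^ m : ℕ) : ℝ) ^ 12 * (K * (2 * r + 1) * (2 / 2 ^ M)) ≤ r / (M : ℝ) ^ 2 := by
    have h10 : (((2 : ℕ) ^ m : ℕ) : ℝ) ^ 12 ≤ Real.sqrt 2 ^ M := by
      have h11 : (((2 : ℕ) ^ m : ℕ) : ℝ) ^ 12 = Real.sqrt 2 ^ (24 * m) := by
        rw [show 24 * m = 2 * (12 * m) by ring, pow_mul (Real.sqrt 2) 2, Real.sq_sqrt (by norm_num)]
        push_cast
        rw [← pow_mul, mul_comm m 12]
      rw [h11]
      exact pow_le_pow_right₀ hs2.le (by omega)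
    have h12 : (2 : ℝ) ^ M = Real.sqrt 2 ^ M * Real.sqrt 2 ^ M := by
      rw [← mul_pow, Real.mul_self_sqrt (by norm_num)]
    have hsM : 0 < Real.sqrt 2 ^ M := by positivity
    have h13 : (M : ℝ) ^ 2 / Real.sqrt 2 ^ M < r / (2 * K * (2 * r + 1)) := hM1
    rw [div_lt_div_iff₀ hsM (by positivity)] at h13
    calc (((2 : ℕ) ^ m : ℕ) : ℝ) ^ 12 * (K * (2 * r + 1) * (2 / 2 ^ M))
        ≤ Real.sqrt 2 ^ M * (K * (2 * r + 1) * (2 / 2 ^ M)) :=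
          mul_le_mul_of_nonneg_right h10 (by positivity)
      _ = 2 * K * (2 * r + 1) / Real.sqrt 2 ^ M := by
          rw [h12]
          field_simp
      _ ≤ r / (M : ℝ) ^ 2 := by
          rw [div_le_div_iff₀ hsM (by positivity)]
          linarith
  have hfin : (volume {α : ℝ | α ∈ Set.Icc (c - r) (c + r) ∧ (⌊α * A⌋₊ + 1).Prime ∧
      (⌊α * (2 ^ k * A + B)⌋₊ + 1).Prime}).toReal ≤
      (2 * (80 * C / Real.log 2) ^ 2 + 1) * r / (M : ℝ) ^ 2 := by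
    refine hcore.trans ((add_le_add ht1 ht2).trans (le_of_eq ?_))
    ring
  have hfinite : volume {α : ℝ | α ∈ Set.Icc (c - r) (c + r) ∧ (⌊α * A⌋₊ + 1).Prime ∧
      (⌊α * (2 ^ k * A + B)⌋₊ + 1).Prime} ≠ ⊤ := by
    refine ne_top_of_le_ne_top ?_ (measure_mono (fun α hα => hα.1))
    rw [Real.volume_Icc]
    exact ENNReal.ofReal_ne_top
  rw [← ENNReal.ofReal_toReal hfinite]
  exact ENNReal.ofReal_le_ofReal hfin

end Pool.Agent.D0H52.GO
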